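import Pool.Agent.Helper96.EL.Goals

/-!
# The box principle in `W(k_v)` (packet EL-CC of helper96)
-/

set_option autoImplicit false

open NumberField Height
open Pool.Agent.Results.MP_e44225_nt.SUnitDisproof (logPlus Place nabs Above)

namespace Pool.Agent.Helper69.EL

open Pool.Agent.Helper96.EL

universe u

section core

variable {F : Type u} [Field F] (a : AbsoluteValue F ℝ) (W : WeierstrassCurve.Affine F)

/-- Lipschitz constant of `psi` on the ball of radius `R` -/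
noncomputable def Lc (R : ℝ) : ℝ := a 4 * (3 * R ^ 2) + a W.b₂ * (2 * R) + a (2 * W.b₄)

theorem Lc_nonneg {R : ℝ} (hR : 0 ≤ R) : 0 ≤ Lc a W R := by
  unfold Lc
  have h1 := a.nonneg 4
  have h2 := a.nonneg W.b₂
  have h3 := a.nonneg (2 * W.b₄)
  positivity

theorem psi_lip {R : ℝ} {x x' : F} (hx : a x ≤ R) (hx' : a x' ≤ R) :
    a (psi W x - psi W x') ≤ a (x - x') * Lc a W R := by
  have e : psi W x - psi W x' =
      (x - x') * (4 * (x ^ 2 + x * x' + x' ^ 2) + W.b₂ * (x + x') + 2 * W.b₄) := by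
    unfold psi
    ring
  rw [e, a.map_mul]
  apply mul_le_mul_of_nonneg_left _ (a.nonneg _)
  have h0 := a.nonneg x
  have h0' := a.nonneg x'
  have h1 : a (x ^ 2 + x * x' + x' ^ 2) ≤ 3 * R ^ 2 := by
    have h2 := a.add_le (x ^ 2 + x * x') (x' ^ 2)
    have h3 := a.add_le (x ^ 2) (x * x')
    rw [a.map_mul] at h3
    rw [a.map_pow] at h2 h3
    nlinarith
  have h4 : a (4 * (x ^ 2 + x * x' + x' ^ 2)) ≤ a 4 * (3 * R ^ 2) := by
    rw [a.map_mul]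
    exact mul_le_mul_of_nonneg_left h1 (a.nonneg _)
  have h5 : a (W.b₂ * (x + x')) ≤ a W.b₂ * (2 * R) := by
    rw [a.map_mul]
    apply mul_le_mul_of_nonneg_left _ (a.nonneg _)
    have := a.add_le x x'
    linarith
  have h6 := a.add_le (4 * (x ^ 2 + x * x' + x' ^ 2) + W.b₂ * (x + x')) (2 * W.b₄)
  have h7 := a.add_le (4 * (x ^ 2 + x * x' + x' ^ 2)) (W.b₂ * (x + x'))
  unfold Lc
  linarith

variable {W}

/-- one of `Y - Y'`, `Y + Y'` is small -/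
theorem pair_small {R η D : ℝ} {G G' : W.Point} (hη : 0 < a 2 * η)
    (hG : G ≠ 0) (hG' : G' ≠ 0) (hx : a (xv G) ≤ R) (hx' : a (xv G') ≤ R) (hY : η ≤ a (Yv G))
    (hD : a (xv G - xv G') ≤ D) :
    a (Yv G - Yv G') ≤ Lc a W R * D / (a 2 * η / 2) ∨
      a (Yv G + Yv G') ≤ Lc a W R * D / (a 2 * η / 2) := by
  have hR : 0 ≤ R := (a.nonneg _).trans hx
  have hL := Lc_nonneg a W hR
  set e := a 2 * η / 2 with he
  have he0 : 0 < e := by positivity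
  have hprod : a (Yv G - Yv G') * a (Yv G + Yv G') ≤ Lc a W R * D := by
    rw [← a.map_mul]
    have e1 : (Yv G - Yv G') * (Yv G + Yv G') = psi W (xv G) - psi W (xv G') := by
      rw [← Yv_sq hG, ← Yv_sq hG']
      ring
    rw [e1]
    calc a (psi W (xv G) - psi W (xv G')) ≤ a (xv G - xv G') * Lc a W R := psi_lip a W hx hx'
      _ ≤ D * Lc a W R := mul_le_mul_of_nonneg_right hD hL
      _ = Lc a W R * D := mul_comm _ _
  have hsum : 2 * e ≤ a (Yv G - Yv G') + a (Yv G + Yv G') := by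
    have h1 := a.add_le (Yv G - Yv G') (Yv G + Yv G')
    have h2 : (Yv G - Yv G') + (Yv G + Yv G') = 2 * Yv G := by ring
    rw [h2, a.map_mul] at h1
    have h3 : a 2 * η ≤ a 2 * a (Yv G) := mul_le_mul_of_nonneg_left hY (a.nonneg _)
    rw [he]
    linarith
  have n1 := a.nonneg (Yv G - Yv G')
  have n2 := a.nonneg (Yv G + Yv G')
  rcases le_total e (a (Yv G - Yv G')) with h | h
  · right
    rw [le_div_iff₀ he0]
    nlinarith
  · left
    rw [le_div_iff₀ he0]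
    nlinarith

theorem three_points {R η D : ℝ} {G₁ G₂ G₃ : W.Point} (hη : 0 < a 2 * η) (hD0 : 0 ≤ D)
    (h1 : G₁ ≠ 0) (h2 : G₂ ≠ 0) (h3 : G₃ ≠ 0)
    (hx1 : a (xv G₁) ≤ R) (hx2 : a (xv G₂) ≤ R) (hx3 : a (xv G₃) ≤ R)
    (hY1 : η ≤ a (Yv G₁)) (hD2 : a (xv G₁ - xv G₂) ≤ D) (hD3 : a (xv G₁ - xv G₃) ≤ D) :
    a (Yv G₁ - Yv G₂) ≤ 2 * Lc a W R / (a 2 * η / 2) * D ∨
      a (Yv G₁ - Yv G₃) ≤ 2 * Lc a W R / (a 2 * η / 2) * D ∨
      a (Yv G₂ - Yv G₃) ≤ 2 * Lc a W R / (a 2 * η / 2) * D := by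
  have hR : 0 ≤ R := (a.nonneg _).trans hx1
  have hL := Lc_nonneg a W hR
  have e1 : 2 * Lc a W R / (a 2 * η / 2) * D = 2 * (Lc a W R * D / (a 2 * η / 2)) := by ring
  have hnn : 0 ≤ Lc a W R * D / (a 2 * η / 2) := by positivity
  rw [e1]
  rcases pair_small a hη h1 h2 hx1 hx2 hY1 hD2 with h | h
  · left
    linarith
  · rcases pair_small a hη h1 h3 hx1 hx3 hY1 hD3 with h' | h'
    · right
      left
      linarith
    · right
      right
      have e2 : Yv G₂ - Yv G₃ = (Yv G₁ + Yv G₂) + -(Yv G₁ + Yv G₃) := by ring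
      have h4 := a.add_le (Yv G₁ + Yv G₂) (-(Yv G₁ + Yv G₃))
      rw [← e2, a.map_neg] at h4
      linarith

theorem core [CharZero F] [DecidableEq F] [W.IsElliptic] (hdist : DIST.{u}) (hgood : GOODX.{u})
    (hshift : SHIFT.{u}) {m : ℕ} (hm : m ≠ 0)
    (hcol : ∀ R : ℝ, ∃ c : ℝ, 0 < c ∧ ∀ N : ℕ, 1 ≤ N → ∃ β : F → Fin N, ∀ x x' : F,
      a x ≤ R → a x' ≤ R → β x = β x' → a (x - x') ^ m ≤ c / N)
    (T0 : W.Point) (hT : T0 + T0 ≠ 0) :
    ∃ c : ℝ, 0 < c ∧ ∃ N₀ : ℕ, ∀ N : ℕ, N₀ ≤ N → ∀ Z : Finset W.Point, N < Z.card →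
      ∃ P ∈ Z, ∃ Q ∈ Z, P ≠ Q ∧ c * (N : ℝ) ^ 2 ≤ a (xv (P - Q)) ^ m := by
  classical
  obtain ⟨R₁, hR₁⟩ := hshift F a W (T0 + T0) hT
  obtain ⟨R', η, hη, hGX⟩ := hgood F a W R₁
  obtain ⟨c₁, hc₁, hcol'⟩ := hcol R'
  obtain ⟨c₂, δ₀, hc₂, hδ₀, hds⟩ := hdist F a W R'
  -- good points
  set Good : W.Point → Prop := fun P => P ≠ 0 ∧ a (xv P) ≤ R' ∧ η ≤ a (Yv P) with hGood
  have hgood1 : ∀ P : W.Point, P + P ≠ 0 → a (xv (P + P)) ≤ R₁ → Good P := by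
    intro P hP hx
    refine ⟨fun h => hP (by rw [h, add_zero]), hGX P hP hx⟩
  have hor : ∀ P : W.Point, Good (P + 0) ∨ Good (P + T0) := by
    intro P
    by_cases h : P + P ≠ 0 ∧ a (xv (P + P)) ≤ R₁
    · left
      rw [add_zero]
      exact hgood1 P h.1 h.2
    · right
      have h' : P + P = 0 ∨ R₁ < a (xv (P + P)) := by
        by_cases h0 : P + P = 0
        · exact Or.inl h0
        · right
          by_contra h1
          exact h ⟨h0, not_lt.1 h1⟩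
      have h2 := hR₁ (P + P) h'
      have e : (P + T0) + (P + T0) = (P + P) + (T0 + T0) := by abel
      rw [← e] at h2
      exact hgood1 (P + T0) h2.1 h2.2
  have h2a : 0 < a 2 := a.pos (by norm_num)
  have h2η : 0 < a 2 * η := by positivity
  set Λ : ℝ := max 1 (2 * Lc a W R' / (a 2 * η / 2)) with hΛ
  have hΛ1 : 1 ≤ Λ := le_max_left _ _
  have hΛ0 : 0 < Λ := by linarith
  set κ : ℝ := (δ₀ / Λ) ^ m with hκ
  have hκ0 : 0 < κ := by positivity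
  obtain ⟨N₁, hN₁⟩ := exists_nat_ge (8 * c₁ / κ)
  refine ⟨c₂ ^ m / (8 * c₁ * Λ ^ m) ^ 2, by positivity, max 4 N₁, fun N hN Z hZ => ?_⟩
  have hN4 : 4 ≤ N := (le_max_left _ _).trans hN
  have hNN₁ : N₁ ≤ N := (le_max_right _ _).trans hN
  have hNr : (0 : ℝ) < N := by
    have : (4 : ℝ) ≤ N := by exact_mod_cast hN4
    linarith
  -- half of the points
  obtain ⟨τ, hτ⟩ : ∃ τ : W.Point, 2 * (N / 4) < (Z.filter fun P => Good (P + τ)).card := by
    by_contra hcon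
    push Not at hcon
    have h1 := hcon 0
    have h2 := hcon T0
    have h3 : Z ⊆ (Z.filter fun P => Good (P + 0)) ∪ (Z.filter fun P => Good (P + T0)) := by
      intro P hP
      rw [Finset.mem_union, Finset.mem_filter, Finset.mem_filter]
      rcases hor P with h | h
      · exact Or.inl ⟨hP, h⟩
      · exact Or.inr ⟨hP, h⟩
    have h4 := (Finset.card_le_card h3).trans (Finset.card_union_le _ _)
    omega
  set n := N / 4 with hn
  have hn1 : 1 ≤ n := by omega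
  have hn8 : (N : ℝ) / 8 ≤ n := by
    have : N ≤ 8 * n := by omega
    have h' : (N : ℝ) ≤ 8 * n := by exact_mod_cast this
    linarith
  have hnr : (0 : ℝ) < n := by exact_mod_cast hn1
  obtain ⟨β, hβ⟩ := hcol' n hn1
  have hfib : ∃ y ∈ (Finset.univ : Finset (Fin n)), 2 < ((Z.filter fun P => Good (P + τ)).filter
      fun P => β (xv (P + τ)) = y).card := by
    apply Finset.exists_lt_card_fiber_of_mul_lt_card_of_maps_to
    · intro P _
      exact Finset.mem_univ _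
    · rw [Finset.card_univ, Fintype.card_fin]
      omega
  obtain ⟨y, _, hy⟩ := hfib
  obtain ⟨P₁, hP₁, P₂, hP₂, P₃, hP₃, h12, h13, h23⟩ := Finset.two_lt_card.1 hy
  simp only [Finset.mem_filter] at hP₁ hP₂ hP₃
  obtain ⟨⟨hZ1, hg1, hx1, hY1⟩, hb1⟩ := hP₁
  obtain ⟨⟨hZ2, hg2, hx2, hY2⟩, hb2⟩ := hP₂
  obtain ⟨⟨hZ3, hg3, hx3, hY3⟩, hb3⟩ := hP₃
  have hd12 := hβ _ _ hx1 hx2 (hb1.trans hb2.symm)
  have hd13 := hβ _ _ hx1 hx3 (hb1.trans hb3.symm)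
  have hd23 := hβ _ _ hx2 hx3 (hb2.trans hb3.symm)
  obtain ⟨D, hD0, hDm, hD12, hD13, hD23⟩ : ∃ D : ℝ, 0 ≤ D ∧ D ^ m ≤ c₁ / n ∧
      a (xv (P₁ + τ) - xv (P₂ + τ)) ≤ D ∧ a (xv (P₁ + τ) - xv (P₃ + τ)) ≤ D ∧
      a (xv (P₂ + τ) - xv (P₃ + τ)) ≤ D := by
    refine ⟨max (a (xv (P₁ + τ) - xv (P₂ + τ))) (max (a (xv (P₁ + τ) - xv (P₃ + τ)))
      (a (xv (P₂ + τ) - xv (P₃ + τ)))), (a.nonneg _).trans (le_max_left _ _), ?_,
      le_max_left _ _, (le_max_left _ _).trans (le_max_right _ _),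
      (le_max_right _ _).trans (le_max_right _ _)⟩
    rcases max_choice (a (xv (P₁ + τ) - xv (P₂ + τ))) (max (a (xv (P₁ + τ) - xv (P₃ + τ)))
      (a (xv (P₂ + τ) - xv (P₃ + τ)))) with h | h
    · rw [h]
      exact hd12
    · rw [h]
      rcases max_choice (a (xv (P₁ + τ) - xv (P₃ + τ))) (a (xv (P₂ + τ) - xv (P₃ + τ)))
        with h' | h'
      · rw [h']
        exact hd13
      · rw [h']
        exact hd23
  have hDm8 : D ^ m ≤ 8 * c₁ / N := by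
    refine hDm.trans ?_
    rw [div_le_div_iff₀ hnr hNr]
    nlinarith
  have hδle : Λ * D ≤ δ₀ := by
    have h1 : D ^ m ≤ κ := by
      refine hDm8.trans ?_
      rw [div_le_iff₀ hNr]
      rw [div_le_iff₀ hκ0] at hN₁
      have h2 : (N₁ : ℝ) ≤ N := by exact_mod_cast hNN₁
      nlinarith
    have h2 : D ≤ δ₀ / Λ := by
      by_contra hcon
      rw [not_le] at hcon
      have := pow_lt_pow_left₀ hcon (by positivity) hm
      linarith
    rw [le_div_iff₀ hΛ0] at h2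
    linarith
  have hΛD : D ≤ Λ * D := by nlinarith
  have hfin : ∀ P Q : W.Point, P ∈ Z → Q ∈ Z → P ≠ Q → P + τ ≠ 0 → Q + τ ≠ 0 →
      a (xv (P + τ)) ≤ R' → a (xv (Q + τ)) ≤ R' → a (xv (P + τ) - xv (Q + τ)) ≤ D →
      a (Yv (P + τ) - Yv (Q + τ)) ≤ 2 * Lc a W R' / (a 2 * η / 2) * D →
      ∃ P ∈ Z, ∃ Q ∈ Z, P ≠ Q ∧
        c₂ ^ m / (8 * c₁ * Λ ^ m) ^ 2 * (N : ℝ) ^ 2 ≤ a (xv (P - Q)) ^ m := by
    intro P Q hP hQ hPQ hP0 hQ0 hxP hxQ hxD hYD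
    refine ⟨P, hP, Q, hQ, hPQ, ?_⟩
    have hne : P + τ ≠ Q + τ := fun h => hPQ (add_right_cancel h)
    have h1 := hds (P + τ) (Q + τ) hP0 hQ0 hne hxP hxQ (Λ * D) (by positivity) hδle
      (hxD.trans hΛD) (hYD.trans (mul_le_mul_of_nonneg_right (le_max_right _ _) hD0))
    rw [add_sub_add_right_eq_sub] at h1
    have h2 : c₂ ^ m ≤ ((Λ * D) ^ 2 * a (xv (P - Q))) ^ m := pow_le_pow_left₀ hc₂.le h1 m
    have h3 : ((Λ * D) ^ 2 * a (xv (P - Q))) ^ m =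
        (Λ ^ m * D ^ m) ^ 2 * a (xv (P - Q)) ^ m := by
      rw [mul_pow, ← pow_mul, ← mul_pow, ← pow_mul]
      ring
    rw [h3] at h2
    have h4 : (Λ ^ m * D ^ m) ^ 2 ≤ (8 * c₁ * Λ ^ m / N) ^ 2 := by
      apply pow_le_pow_left₀ (by positivity)
      calc Λ ^ m * D ^ m ≤ Λ ^ m * (8 * c₁ / N) :=
            mul_le_mul_of_nonneg_left hDm8 (by positivity)
        _ = 8 * c₁ * Λ ^ m / N := by ring
    have h5 : c₂ ^ m ≤ (8 * c₁ * Λ ^ m / N) ^ 2 * a (xv (P - Q)) ^ m :=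
      h2.trans (mul_le_mul_of_nonneg_right h4 (pow_nonneg (a.nonneg _) m))
    have h6 : (8 * c₁ * Λ ^ m / N) ^ 2 = (8 * c₁ * Λ ^ m) ^ 2 / (N : ℝ) ^ 2 := by rw [div_pow]
    rw [h6, div_mul_eq_mul_div, le_div_iff₀ (by positivity)] at h5
    rw [div_mul_eq_mul_div, div_le_iff₀ (by positivity)]
    linarith
  rcases three_points a h2η hD0 hg1 hg2 hg3 hx1 hx2 hx3 hY1 hD12 hD13 with h | h | h
  · exact hfin P₁ P₂ hZ1 hZ2 h12 hg1 hg2 hx1 hx2 hD12 h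
  · exact hfin P₁ P₃ hZ1 hZ3 h13 hg1 hg3 hx1 hx3 hD13 h
  · exact hfin P₂ P₃ hZ2 hZ3 h23 hg2 hg3 hx2 hx3 hD23 h

end core

theorem cc : PIGF.{u} → PIGI.{u} → DIST.{u} → GOODX.{u} → SHIFT.{u} → CC.{u} := by
  intro hF hI hd hg hs k _ _ _ W _ v T0 hT
  rcases v with w | w
  · exact core (w.1 : AbsoluteValue k ℝ) hd hg hs (m := w.mult) w.mult_pos.ne'
      (fun R => hI k w R) T0 hT
  · have h1 := core (w.1 : AbsoluteValue k ℝ) (W := W) hd hg hs (m := 1) one_ne_zero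
      (fun R => by
        obtain ⟨c, hc, h⟩ := hF k w R
        refine ⟨c, hc, fun N hN => ?_⟩
        obtain ⟨β, hβ⟩ := h N hN
        refine ⟨β, fun x x' hx hx' hb => ?_⟩
        rw [pow_one]
        exact hβ x x' hx hx' hb) T0 hT
    obtain ⟨c, hc, N₀, h⟩ := h1
    refine ⟨c, hc, N₀, fun N hN Z hZ => ?_⟩
    obtain ⟨P, hP, Q, hQ, hne, hle⟩ := h N hN Z hZ
    refine ⟨P, hP, Q, hQ, hne, ?_⟩
    rw [pow_one] at hle
    exact hle

end Pool.Agent.Helper69.EL
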